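import Pool.Agent.KDT.StmtsZ

set_option autoImplicit false

namespace Pool.Agent.KDT.H54

open Polynomial H58Q Pool.Agent.SZT Pool.Agent.KDT.Z

theorem pA_emb {k U : Type} [Field k] [Field U] [Algebra k U] (t : Fin 4 → k) :
    pA (emb U t) = (pA t).map (algebraMap k U) := by
  simp [pA, emb]

theorem pB_emb {k U : Type} [Field k] [Field U] [Algebra k U] (t : Fin 4 → k) :
    pB (emb U t) = (pB t).map (algebraMap k U) := by
  simp [pB, emb]

theorem on_emb {k U : Type} [Field k] [Field U] [Algebra k U] (f : k[X]) (t : Fin 4 → k)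
    (h : On f t) : On (f.map (algebraMap k U)) (emb U t) := by
  unfold On at h ⊢
  rw [pA_emb, pB_emb, ← Polynomial.map_pow, ← Polynomial.map_sub]
  exact Polynomial.map_dvd _ h

theorem stg (hC : CppStatement) (hS : SubStatement) (hN : NrmStatement) (hA : AvoStatement)
    (hK : KbsStatement) (_hM : CmaStatement) : StgStatement := by
  intro n
  obtain ⟨C0, hC0⟩ := hN (20 * n + 20)
  refine ⟨C0, ?_⟩
  intro k U _ _ _ f g hE J _ th cl act Jk hJ q Φ hq hΦ0 hdeg hz
  have := hE.kc
  have := hE.oc
  have := hE.ch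
  have : CharZero U := charZero_of_injective_algebraMap (algebraMap k U).injective
  have hgm : g.Monic := by rw [hE.gm]; exact hE.mo.map _
  have hgd : g.natDegree = 5 := by rw [hE.gm, Polynomial.natDegree_map]; exact hE.d5
  have hgs : Squarefree g := by
    rw [hE.gm]
    have h1 : f.Separable := PerfectField.separable_iff_squarefree.mpr hE.sf
    exact h1.map.squarefree
  obtain ⟨N, D, hNd, hDd, hND⟩ := hC U (g.coeff 4) q
  have hemb : emb (k := U) U q = q := by
    funext i
    simp [emb]
  have hND' := hND U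
  rw [hemb] at hND'
  set Φ' : MvPolynomial (Fin 2) U := MvPolynomial.map (algebraMap k U) Φ with hΦ'
  have hΦ'0 : Φ' ≠ 0 := by
    intro h
    apply hΦ0
    apply MvPolynomial.map_injective (algebraMap k U) (algebraMap k U).injective
    rw [map_zero]
    exact h
  have hdeg' : Φ'.totalDegree ≤ n := le_trans (Finset.sup_mono (MvPolynomial.support_map_subset _ _)) hdeg
  obtain ⟨G, hGd, hG⟩ := hS 2 n 20 U Φ' ![N 0, N 1] D hdeg' (by
    intro i
    fin_cases i
    · exact hNd 0
    · exact hNd 1) hDd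
  have hG' := hG U
  have hval : ∀ x : Fin 4 → U, MvPolynomial.aeval x D ≠ 0 →
      MvPolynomial.aeval x G = (MvPolynomial.aeval x D) ^ n *
        MvPolynomial.aeval ![cmp (g.coeff 4) x q 0, cmp (g.coeff 4) x q 1] Φ' := by
    intro x hx
    rw [hG' x hx]
    congr 2
    have h0 := (hND' x).2 hx 0
    have h1 := (hND' x).2 hx 1
    have e : (fun i => MvPolynomial.aeval x ((![N 0, N 1] : Fin 2 → MvPolynomial (Fin 4) U) i) /
        MvPolynomial.aeval x D) = ![cmp (g.coeff 4) x q 0, cmp (g.coeff 4) x q 1] := by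
      funext i
      fin_cases i
      · simpa using h0.symm
      · simpa using h1.symm
    rw [e]
  have hev : ∀ (x : Fin 4 → U) (P : MvPolynomial (Fin 4) U),
      MvPolynomial.eval₂ (RingHom.id U) x P = MvPolynomial.aeval x P := by
    intro x P
    rfl
  have hDG : (D * G).totalDegree ≤ 20 * n + 20 := by
    refine le_trans (MvPolynomial.totalDegree_mul _ _) ?_
    omega
  obtain ⟨Θ, hΘ0, hΘd, hΘ⟩ := hC0 U g hgm hgd hgs (D * G) hDG (by
    obtain ⟨x, hx, hx4, hr, ho, hne⟩ := hA U g J th cl hgm hgd hgs hJ.toJG Φ' hΦ'0 q hq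
    refine ⟨U, inferInstance, RingHom.id U, x, ?_, hx4, ?_⟩
    · rw [Polynomial.map_id]; exact hx
    · rw [hev, map_mul]
      have hD : MvPolynomial.aeval x D ≠ 0 := (hND' x).1.mpr ⟨hr, ho⟩
      rw [hval x hD]
      exact mul_ne_zero hD (mul_ne_zero (pow_ne_zero _ hD) hne))
  obtain ⟨R, hR0, hRd, hR⟩ := hK k U Θ hΘ0
  refine ⟨R, hR0, le_trans hRd hΘd, ?_⟩
  intro t ht hst
  apply hR
  have hont : On g (emb U t) := by
    rw [hE.gm]
    exact on_emb f t ht
  have h3 := hΘ U (RingHom.id U) (emb U t) (by rw [Polynomial.map_id]; exact hont) (by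
    rw [hev, map_mul]
    by_cases hD : MvPolynomial.aeval (emb U t) D = 0
    · rw [hD, zero_mul]
    · rw [hval _ hD]
      have hrr := (hND' (emb U t)).1.mp hD
      obtain ⟨hon, hcl⟩ := hJ.comp (emb U t) q hont hq hrr.1 hrr.2
      obtain ⟨σ, hσ⟩ := hst
      obtain ⟨hon2, hact⟩ := hJ.act_cl σ q hq
      have heq : cmp (g.coeff 4) (emb U t) q = fun i => σ (q i) := by
        apply hJ.cl_inj _ _ hon hon2
        rw [← hcl, ← hact, hσ, add_comm]
      have hzero : MvPolynomial.aeval
          ![cmp (g.coeff 4) (emb U t) q 0, cmp (g.coeff 4) (emb U t) q 1] Φ' = 0 := by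
        rw [heq, hΦ', MvPolynomial.aeval_map_algebraMap]
        have e2 : (![σ (q 0), σ (q 1)] : Fin 2 → U) = fun i => σ ((![q 0, q 1] : Fin 2 → U) i) := by
          funext i
          fin_cases i <;> rfl
        show MvPolynomial.aeval ![σ (q 0), σ (q 1)] Φ = 0
        rw [e2]
        have e3 : MvPolynomial.aeval (fun i => σ ((![q 0, q 1] : Fin 2 → U) i)) Φ =
            σ (MvPolynomial.aeval ![q 0, q 1] Φ) := by
          have := MvPolynomial.comp_aeval_apply (f := (![q 0, q 1] : Fin 2 → U))
            (σ : U →ₐ[k] U) Φ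
          simpa using this.symm
        rw [e3]
        unfold Zr at hz
        rw [hz, map_zero]
      rw [hzero, mul_zero, mul_zero])
  exact h3

end Pool.Agent.KDT.H54
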